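import Pool.Agent.Lib.LP93.Tail

open MeasureTheory ProbabilityTheory Filter Topology

namespace Pool.Agent.Lib.LP70.AlmostSure

open Pool.Agent.Lib.MP_db3ceb_pr Pool.Agent.Lib.LP93

/-- Supercritical bond percolation on the square lattice: `C_n / n²` converges to a constant in
probability and almost surely, `L_n / n²` converges almost surely to the same constant, and the
upper tail of `L_n` is exponentially small in the volume. -/
theorem result (p : unitInterval) (hp : 1 / 2 < (p : ℝ)) : ∃ κ : ℝ,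
    TendstoInMeasure (setBernoulli lattice.edgeSet p)
      (fun (n : ℕ) (ω : Set (Sym2 (ℤ × ℤ))) => (longestCycle n ω : ℝ) / (n : ℝ) ^ 2) atTop
      (fun _ => κ) ∧
    (∀ᵐ ω ∂setBernoulli lattice.edgeSet p,
      Tendsto (fun n : ℕ => (longestCycle n ω : ℝ) / (n : ℝ) ^ 2) atTop (𝓝 κ) ∧
      Tendsto (fun n : ℕ => (longestPath n ω : ℝ) / (n : ℝ) ^ 2) atTop (𝓝 κ)) ∧
    ∀ ε : ℝ, 0 < ε → ∃ c : ℝ, 0 < c ∧ ∀ᶠ n : ℕ in atTop,
      (setBernoulli lattice.edgeSet p).real {ω | (κ + ε) * (n : ℝ) ^ 2 ≤ longestPath n ω} ≤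
        Real.exp (-c * (n : ℝ) ^ 2) :=
  main_as p hp

end Pool.Agent.Lib.LP70.AlmostSure
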